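import Pool.Agent.Lib.MP_b1a3a4_al.MVS.TH.Iface

/-!
# Project MVS, part V, module HAT (13.17): the homotopy addition theorem
-/

set_option linter.all false

namespace Pool.Agent.Lib.MP_b1a3a4_al.MVS.TH.H91

open Pool.Agent.Lib.MP_b1a3a4_al.MVS.TH

theorem ev_mem (ε : Bool) : ev ε = 0 ∨ ev ε = 1 := by
  cases ε
  · exact Or.inl rfl
  · exact Or.inr rfl

/-- Two faces: if a coordinate of `x` is `0` or `1` then `fi l ε x` has two such coordinates. -/
theorem two_of_bd {q : ℕ} (l : Fin (q + 1)) (ε : Bool) (x : Cu q)
    (hx : x ∈ Cube.boundary (Fin q)) :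
    ∃ i j, i ≠ j ∧ (fi l ε x i = 0 ∨ fi l ε x i = 1) ∧ (fi l ε x j = 0 ∨ fi l ε x j = 1) := by
  obtain ⟨i, hi⟩ := hx
  refine ⟨l, l.succAbove i, (Fin.succAbove_ne l i).symm, ?_, ?_⟩
  · rw [show fi l ε x l = ev ε from ins_same _ _ _]
    exact ev_mem ε
  · rw [show fi l ε x (l.succAbove i) = x i from ins_succAbove _ _ _ _]
    exact hi

theorem good_face {Z : Type} [TopologicalSpace Z] {B : Set Z} {y : Z} {q : ℕ} {F : Cu (q + 1) → Z}
    (hF : Gd2 B y F) (l : Fin (q + 1)) (ε : Bool) : Good B y (fun x => F (fi l ε x)) :=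
  ⟨hF.1.comp (continuous_fi l ε), fun x => hF.2.1 _, fun x hx => hF.2.2 _ (two_of_bd l ε x hx)⟩

/-- The multiplicative version of the class. -/
theorem isCl_mul {Z : Type} [TopologicalSpace Z] {q : ℕ} {B : Set Z} {y : Z} {P : Type}
    [AddCommGroup P] {cl : (Cu q → Z) → P} (h : IsCla q B y cl) :
    IsCl q B y (fun a => Multiplicative.ofAdd (cl a)) := by
  refine ⟨fun a b ha hb => ?_, ?_, fun a ha i hi => ?_⟩
  · rw [← h.htpy a b ha hb]
    exact Multiplicative.ofAdd.injective.eq_iff
  · show Multiplicative.ofAdd (cl fun _ => y) = 1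
    rw [h.const]
    rfl
  · show Multiplicative.ofAdd (cl a) = _
    rw [h.add a ha i hi]
    rfl

theorem hat (h1 : HatbaseStatement) (h2 : HatglueStatement) (h3 : HatrotStatement) :
    HatStatement := by
  intro Z _ B y r P _ cl hcl
  have key : ∀ d : ℕ, 1 ≤ d → ∀ F : Cu (r + 3) → Z, Gd2 B y F →
      (∀ l : Fin (r + 3), d < (l : ℕ) → ∀ ε x, F (fi l ε x) = y) → Sg cl F = 0 := by
    intro d hd
    induction d, hd using Nat.le_induction with
    | base =>
      intro F hF hconst
      have hc : ∀ i : Fin (r + 3), i ≠ 0 → i ≠ 1 → ∀ ε x, F (fi i ε x) = y := by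
        intro i hi0 hi1 ε x
        apply hconst
        have a0 : (i : ℕ) ≠ 0 := fun h => hi0 (Fin.ext h)
        have a1 : (i : ℕ) ≠ 1 := fun h => hi1 (Fin.ext h)
        omega
      have hb := h1 Z B y (r + 1) (Multiplicative P) _ (isCl_mul hcl) F hF hc
      have hb' : cl (fun x => F (fi 1 false x)) + cl (fun x => F (fi 0 true x)) =
          cl (fun x => F (fi 0 false x)) + cl (fun x => F (fi 1 true x)) :=
        Multiplicative.ofAdd.injective hb
      unfold Sg
      rw [Fin.sum_univ_succ, Fin.sum_univ_succ]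
      have hz : ∀ i : Fin (r + 1), ((-1 : ℤ) ^ ((i.succ.succ : Fin (r + 3)) : ℕ)) •
          (cl (fun x => F (fi i.succ.succ true x)) - cl (fun x => F (fi i.succ.succ false x))) =
            0 := by
        intro i
        have e : ∀ ε, (fun x => F (fi (i.succ.succ : Fin (r + 3)) ε x)) = fun _ => y := by
          intro ε
          funext x
          apply hconst
          simp only [Fin.val_succ]
          omega
        rw [e, e, sub_self, smul_zero]
      simp only [hz, Finset.sum_const_zero, add_zero]
      have e1 : ((Fin.succ 0 : Fin (r + 3))) = 1 := rfl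
      rw [e1]
      simp only [Fin.val_zero, pow_zero, one_smul, Fin.val_one, pow_one, neg_smul]
      have h4 : cl (fun x => F (fi 0 true x)) - cl (fun x => F (fi 0 false x)) +
          -(cl (fun x => F (fi 1 true x)) - cl (fun x => F (fi 1 false x))) =
          (cl (fun x => F (fi 1 false x)) + cl (fun x => F (fi 0 true x))) -
          (cl (fun x => F (fi 0 false x)) + cl (fun x => F (fi 1 true x))) := by abel
      rw [h4, hb', sub_self]
    | succ d hd ih =>
      intro F hF hconst
      rcases Nat.lt_or_ge d (r + 2) with hdr | hdr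
      · obtain ⟨i, hi⟩ : ∃ i : Fin (r + 2), (i : ℕ) = d := ⟨⟨d, hdr⟩, rfl⟩
        have hls : ((i.succ : Fin (r + 3)) : ℕ) = d + 1 := by simp [hi]
        have hlc : ((i.castSucc : Fin (r + 3)) : ℕ) = d := by simp [hi]
        -- first step
        obtain ⟨G, hG, hGs, hG0, hG1, hGc⟩ := h3 Z B y r P cl hcl
          (fun x => F (fi i.succ true x)) (good_face hF _ _) i false
        obtain ⟨H, hH, hHs, hH0, hH1, hHc⟩ := h2 Z B y r P cl hcl F G hF hG i.succ
          (fun x => (hG0 x).symm)
        have hHc' : ∀ l : Fin (r + 3), d + 1 < (l : ℕ) → ∀ ε x, H (fi l ε x) = y := by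
          intro l hl ε x
          have n1 : l ≠ i.succ := fun h => by rw [h] at hl; omega
          have n2 : l ≠ i.castSucc := fun h => by rw [h] at hl; omega
          exact hHc l n1 ε (fun x => hconst l hl ε x) (fun x => hGc l n1 n2 ε x) x
        -- second step
        obtain ⟨G', hG', hGs', hG0', hG1', hGc'⟩ := h3 Z B y r P cl hcl
          (fun x => H (fi i.succ false x)) (good_face hH _ _) i true
        obtain ⟨H', hH', hHs', hH0', hH1', hHc''⟩ := h2 Z B y r P cl hcl G' H hG' hH i.succ
          (fun x => hG0' x)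
        have hfin : Sg cl H' = 0 := by
          apply ih H' hH'
          intro l hl ε x
          by_cases hle : (l : ℕ) = d + 1
          · have hl' : l = i.succ := Fin.ext (by rw [hls, hle])
            subst hl'
            cases ε
            · rw [hH0']
              exact hG1' x
            · rw [hH1', hH1]
              exact hG1 x
          · have hl2 : d + 1 < (l : ℕ) := by omega
            have n1 : l ≠ i.succ := fun h => by rw [h] at hl2; omega
            have n2 : l ≠ i.castSucc := fun h => by rw [h] at hl2; omega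
            exact hHc'' l n1 ε (fun x => hGc' l n1 n2 ε x) (fun x => hHc' l hl2 ε x) x
        rw [hHs', hGs', hHs, hGs, zero_add, add_zero] at hfin
        exact hfin
      · apply ih F hF
        intro l hl
        have := l.2
        omega
  intro F hF
  exact key (r + 3) (by omega) F hF (fun l hl => by have := l.2; omega)

end Pool.Agent.Lib.MP_b1a3a4_al.MVS.TH.H91
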