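import Pool.Agent.Lib.MP_b1a3a4_al.MVS.TH.H91.Hat

/-!
# Project MVS, part V, module HATC0 (13.18)
-/

set_option linter.all false

namespace Pool.Agent.Lib.MP_b1a3a4_al.MVS.TH.H91

open Pool.Agent.Lib.MP_b1a3a4_al.MVS.TH

/-- `ins 0 s x` is in the boundary if `x` is. -/
theorem ins_bd {q : ℕ} (s : unitInterval) (x : Cu q) (hx : x ∈ Cube.boundary (Fin q)) :
    ins 0 s x ∈ Cube.boundary (Fin (q + 1)) := by
  obtain ⟨i, hi⟩ := hx
  refine ⟨(0 : Fin (q + 1)).succAbove i, ?_⟩
  rw [show ins 0 s x ((0 : Fin (q + 1)).succAbove i) = x i from ins_succAbove _ _ _ _]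
  exact hi

/-- A point with a coordinate in `{0,1}` is on a face. -/
theorem eq_fi {q : ℕ} (x : Cu (q + 1)) (j : Fin (q + 1)) (hj : x j = 0 ∨ x j = 1) :
    ∃ ε, x = fi j ε (rem j x) := by
  rcases hj with h | h
  · refine ⟨false, ?_⟩
    rw [fi, ev_false, ← h, ins_rem]
  · refine ⟨true, ?_⟩
    rw [fi, ev_true, ← h, ins_rem]

theorem hatc0 (h1 : FamStatement) (h2 : RetrStatement) : Hatc0Statement := by
  intro Z _ B y r f hf hgood
  classical
  -- values of `f` in the boundary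
  have hfB : ∀ x ∈ Cube.boundary (Fin (r + 2)), f x ∈ B := by
    intro x hx
    obtain ⟨i, ε, z, rfl⟩ := (mem_boundary_iff x).1 hx
    exact (hgood i ε).2.1 z
  have hf2 : ∀ x : Cu (r + 2), (∃ i j, i ≠ j ∧ (x i = 0 ∨ x i = 1) ∧ (x j = 0 ∨ x j = 1)) →
      f x = y := by
    rintro x ⟨i, j, hij, hi, hj⟩
    obtain ⟨ε, hx⟩ := eq_fi x j hj
    rw [hx]
    apply (hgood j ε).2.2
    obtain ⟨k, hk⟩ := Fin.exists_succAbove_eq hij
    refine ⟨k, ?_⟩
    rw [rem_apply, hk]
    exact hi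
  -- the homotopy on the boundary of the face
  have hcurry : Continuous (fun p : (Cube.boundary (Fin (r + 1))) × unitInterval =>
      f (ins 0 p.2 p.1.1)) := by
    have hc : Continuous (fun p : (Cube.boundary (Fin (r + 1))) × unitInterval =>
        (ins 0 p.2 p.1.1 : Cu (r + 2))) := by
      refine continuous_pi (fun j => ?_)
      rcases Fin.eq_self_or_eq_succAbove 0 j with rfl | ⟨k, rfl⟩
      · simpa using continuous_snd
      · simp only [ins_succAbove]
        exact (continuous_apply k).comp (continuous_subtype_val.comp continuous_fst)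
    exact hf.comp_continuous hc (fun p => ins_bd _ _ p.1.2)
  obtain ⟨gc, hgc⟩ : ∃ gc : (Cube.boundary (Fin (r + 1))) → C(unitInterval, Z), Continuous gc ∧
      ∀ x s, gc x s = f (ins 0 s x.1) :=
    ⟨fun x => ContinuousMap.curry ⟨_, hcurry⟩ x, (ContinuousMap.curry ⟨_, hcurry⟩).continuous,
      fun x s => rfl⟩
  obtain ⟨g, hg⟩ : ∃ g : Cu (r + 1) → C(unitInterval, Z),
      ∀ (x : Cu (r + 1)) (hx : x ∈ Cube.boundary (Fin (r + 1))), g x = gc ⟨x, hx⟩ :=
    ⟨fun x => if hx : x ∈ Cube.boundary (Fin (r + 1)) then gc ⟨x, hx⟩ else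
      ContinuousMap.const _ y, fun x hx => dif_pos hx⟩
  have hgcont : ContinuousOn g (Cube.boundary (Fin (r + 1))) := by
    rw [continuousOn_iff_continuous_restrict]
    have : (Cube.boundary (Fin (r + 1))).domRestrict g = gc := by
      funext x
      exact hg x.1 x.2
    rw [this]
    exact hgc.1
  obtain ⟨F', hF'c, hF'B, hF'0, hF'g⟩ := h2 Z (r + 1) B (fun x => f (fi 0 false x)) g
    (hgood 0 false).1 (hgood 0 false).2.1 hgcont (by
      intro x hx
      refine ⟨fun s => ?_, ?_⟩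
      · rw [hg x hx, hgc.2]
        exact hfB _ (ins_bd s x hx)
      · rw [hg x hx, hgc.2]
        rfl)
  obtain ⟨F, hF⟩ : ∃ F : Cu (r + 2) → Z, ∀ x, F x = F' (rem 0 x) (x 0) :=
    ⟨fun x => F' (rem 0 x) (x 0), fun _ => rfl⟩
  have hFc : Continuous F := by
    have h3 : Continuous (fun p : Cu (r + 1) × unitInterval => F' p.1 p.2) :=
      ContinuousMap.continuous_uncurry_of_continuous ⟨F', hF'c⟩
    have h4 : F = (fun p : Cu (r + 1) × unitInterval => F' p.1 p.2) ∘
        (fun x : Cu (r + 2) => (rem 0 x, x 0)) := by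
      funext x
      exact hF x
    rw [h4]
    exact h3.comp ((continuous_rem 0).prodMk (continuous_apply 0))
  -- `F = f` on the faces in other directions
  have hFf : ∀ x : Cu (r + 2), ∀ j, j ≠ 0 → (x j = 0 ∨ x j = 1) → F x = f x := by
    intro x j hj hx
    have hb : rem 0 x ∈ Cube.boundary (Fin (r + 1)) := by
      obtain ⟨k, hk⟩ := Fin.exists_succAbove_eq hj
      refine ⟨k, ?_⟩
      rw [rem_apply, hk]
      exact hx
    rw [hF, hF'g _ hb, hg _ hb, hgc.2, ins_rem]
  have hF0 : ∀ x, F (fi 0 false x) = f (fi 0 false x) := by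
    intro x
    rw [hF, show rem 0 (fi 0 false x) = x from rem_ins _ _ _,
      show (fi 0 false x : Cu (r + 2)) 0 = 0 from ins_same _ _ _, hF'0]
  have hGd : Gd2 B y F := by
    refine ⟨hFc, fun x => by rw [hF]; exact hF'B _ _, ?_⟩
    rintro x ⟨i, j, hij, hi, hj⟩
    by_cases hj0 : j = 0
    · have hi0 : i ≠ 0 := fun h => hij (h.trans hj0.symm)
      rw [hFf x i hi0 hi]
      exact hf2 x ⟨i, j, hij, hi, hj⟩
    · rw [hFf x j hj0 hj]
      exact hf2 x ⟨i, j, hij, hi, hj⟩
  have hface : ∀ i ε, (i, ε) ≠ ((0 : Fin (r + 2)), true) → ∀ x, F (fi i ε x) = f (fi i ε x) := by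
    intro i ε hne x
    by_cases hi : i = 0
    · subst hi
      have : ε = false := by
        cases ε
        · rfl
        · exact absurd rfl hne
      subst this
      exact hF0 x
    · apply hFf _ i hi
      rw [show fi i ε x i = ev ε from ins_same _ _ _]
      exact ev_mem ε
  refine ⟨F, hGd, hface, ?_⟩
  rintro ⟨H, hHc, hHB, hH0, hH1, hHb⟩
  obtain ⟨a, ha⟩ : ∃ a : Fin (r + 2) → Bool → Cu (r + 1) → C(unitInterval, Z),
      a = fun i ε x => if (i, ε) = ((0 : Fin (r + 2)), true) then H x else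
        ContinuousMap.const _ (F (fi i ε x)) := ⟨_, rfl⟩
  have a0 : ∀ x, a 0 true x = H x := by
    intro x
    rw [ha]
    exact if_pos rfl
  have a1 : ∀ i ε, (i, ε) ≠ ((0 : Fin (r + 2)), true) → ∀ x,
      a i ε x = ContinuousMap.const _ (F (fi i ε x)) := by
    intro i ε hne x
    rw [ha]
    exact if_neg hne
  -- the mixed case of the compatibility
  have mixed : ∀ (j : Fin (r + 2)) (δ : Bool) (x z : Cu (r + 1)), (j, δ) ≠ (0, true) →
      fi 0 true x = fi j δ z → a 0 true x = a j δ z := by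
    intro j δ x z hne heq
    have hj : j ≠ 0 := by
      intro h
      subst h
      have h5 := (ins_inj 0 heq).1
      cases δ
      · simp [ev] at h5
      · exact hne rfl
    have hxb : x ∈ Cube.boundary (Fin (r + 1)) := by
      obtain ⟨k, hk⟩ := Fin.exists_succAbove_eq hj
      refine ⟨k, ?_⟩
      have h6 : x k = fi 0 true x ((0 : Fin (r + 2)).succAbove k) :=
        (ins_succAbove _ _ _ _).symm
      rw [h6, hk, heq, show fi j δ z j = ev δ from ins_same _ _ _]
      exact ev_mem δ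
    rw [a0, a1 j δ hne]
    ext s
    rw [hHb x hxb s, ContinuousMap.const_apply, ← heq]
    exact (hGd.2.2 _ (two_of_bd 0 true x hxb)).symm
  have hcompat : Compat a := by
    intro i ε x j δ z heq
    by_cases h3 : (i, ε) = ((0 : Fin (r + 2)), true)
    · by_cases h4 : (j, δ) = ((0 : Fin (r + 2)), true)
      · obtain ⟨rfl, rfl⟩ := Prod.mk.inj h3
        obtain ⟨rfl, rfl⟩ := Prod.mk.inj h4
        rw [(ins_inj 0 heq).2]
      · obtain ⟨rfl, rfl⟩ := Prod.mk.inj h3
        exact mixed j δ x z h4 heq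
    · by_cases h4 : (j, δ) = ((0 : Fin (r + 2)), true)
      · obtain ⟨rfl, rfl⟩ := Prod.mk.inj h4
        exact (mixed i ε z x h3 heq.symm).symm
      · rw [a1 i ε h3, a1 j δ h4, heq]
  obtain ⟨G, hG⟩ := h1.2 _ (r + 1) a hcompat
  have hGc : ContinuousOn G (Cube.boundary (Fin (r + 2))) := by
    rw [h1.1]
    intro i ε
    simp only [hG]
    by_cases h3 : (i, ε) = ((0 : Fin (r + 2)), true)
    · obtain ⟨rfl, rfl⟩ := Prod.mk.inj h3
      have : (fun x => a 0 true x) = H := funext a0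
      rw [this]
      exact hHc
    · have : (fun x => a i ε x) = fun x => ContinuousMap.const _ (F (fi i ε x)) :=
        funext (a1 i ε h3)
      rw [this]
      exact ContinuousMap.continuous_const'.comp (hFc.comp (continuous_fi i ε))
  obtain ⟨F2, hF2c, hF2B, hF20, hF2g⟩ := h2 Z (r + 2) B F G hFc hGd.2.1 hGc (by
    intro x hx
    obtain ⟨i, ε, z, rfl⟩ := (mem_boundary_iff x).1 hx
    rw [hG]
    by_cases h3 : (i, ε) = ((0 : Fin (r + 2)), true)
    · obtain ⟨rfl, rfl⟩ := Prod.mk.inj h3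
      rw [a0]
      exact ⟨hHB z, hH0 z⟩
    · rw [a1 i ε h3]
      exact ⟨fun s => hGd.2.1 _, rfl⟩)
  refine ⟨fun x => F2 x 1, ?_, fun x => hF2B x 1, ?_⟩
  · exact hF2c.eval_const 1
  · intro x hx
    show F2 x 1 = f x
    rw [hF2g x hx]
    obtain ⟨i, ε, z, rfl⟩ := (mem_boundary_iff x).1 hx
    rw [hG]
    by_cases h3 : (i, ε) = ((0 : Fin (r + 2)), true)
    · obtain ⟨rfl, rfl⟩ := Prod.mk.inj h3
      rw [a0]
      exact hH1 z
    · rw [a1 i ε h3]
      exact hface i ε h3 z

end Pool.Agent.Lib.MP_b1a3a4_al.MVS.TH.H91
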